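import Mathlib
import Pool.Agent.H402R2.SubMean
import Pool.Agent.Helper540.Holo

set_option autoImplicit false
open MeasureTheory Metric Set Filter Topology
open scoped ENNReal

namespace Pool.Agent.V7H93.Fock

variable {n : ℕ}

/-- the square of the Euclidean norm of a point of the complex space -/
noncomputable def nsq (z : Fin n → ℂ) : ℝ := ∑ k, ‖z k‖ ^ 2

/-- the radial derivative -/
noncomputable def rad (f : (Fin n → ℂ) → ℂ) (z : Fin n → ℂ) : ℂ :=
  ∑ k, z k * fderiv ℂ f z (Pi.single k 1)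

lemma rad_eq (f : (Fin n → ℂ) → ℂ) (z : Fin n → ℂ) : rad f z = fderiv ℂ f z z := by
  have h1 : z = ∑ k, z k • (Pi.single k (1 : ℂ) : Fin n → ℂ) := by
    have h2 := Finset.univ_sum_single z
    conv_lhs => rw [← h2]
    refine Finset.sum_congr rfl fun k _ => ?_
    rw [← Pi.single_smul', smul_eq_mul, mul_one]
  calc rad f z = ∑ k, fderiv ℂ f z (z k • (Pi.single k (1 : ℂ) : Fin n → ℂ)) := by
        unfold rad
        refine Finset.sum_congr rfl fun k _ => ?_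
        rw [map_smul, smul_eq_mul]
    _ = fderiv ℂ f z (∑ k, z k • (Pi.single k (1 : ℂ) : Fin n → ℂ)) := (map_sum _ _ _).symm
    _ = fderiv ℂ f z z := by rw [← h1]

lemma nsq_nonneg (z : Fin n → ℂ) : 0 ≤ nsq z := Finset.sum_nonneg fun _ _ => by positivity

lemma nsq_smul (ξ : ℂ) (z : Fin n → ℂ) : nsq (ξ • z) = ‖ξ‖ ^ 2 * nsq z := by
  unfold nsq
  rw [Finset.mul_sum]
  refine Finset.sum_congr rfl fun k _ => ?_
  rw [Pi.smul_apply, smul_eq_mul, norm_mul, mul_pow]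

lemma nsq_continuous : Continuous (nsq : (Fin n → ℂ) → ℝ) := by
  unfold nsq
  fun_prop

lemma rad_differentiable {f : (Fin n → ℂ) → ℂ} (hf : Differentiable ℂ f) :
    Differentiable ℂ (rad f) := by
  have h1 : ∀ v : Fin n → ℂ, Differentiable ℂ (fun z => fderiv ℂ f z v) := by
    intro v
    have := Pool.Agent.Helper540.differentiableOn_fderiv_apply (E := Fin n → ℂ) isOpen_univ
      (differentiableOn_univ.2 hf) v
    exact differentiableOn_univ.1 this
  unfold rad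
  refine Differentiable.fun_sum fun k _ => ?_
  exact (differentiable_apply k).mul (h1 _)

lemma rad_iter_differentiable {f : (Fin n → ℂ) → ℂ} (hf : Differentiable ℂ f) (N : ℕ) :
    Differentiable ℂ (rad^[N] f) := by
  induction N with
  | zero => exact hf
  | succ N ih =>
    rw [Function.iterate_succ_apply']
    exact rad_differentiable ih

/-- the slice through `z` -/
lemma slice_hasDerivAt {h : (Fin n → ℂ) → ℂ} (hh : Differentiable ℂ h) (z : Fin n → ℂ) (ξ : ℂ) :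
    HasDerivAt (fun ξ : ℂ => h (ξ • z)) (fderiv ℂ h (ξ • z) z) ξ := by
  have h1 : HasDerivAt (fun ξ : ℂ => ξ • z) z ξ := by
    simpa using (hasDerivAt_id ξ).smul_const z
  exact (hh (ξ • z)).hasFDerivAt.comp_hasDerivAt ξ h1

lemma slice_differentiable {h : (Fin n → ℂ) → ℂ} (hh : Differentiable ℂ h) (z : Fin n → ℂ) :
    Differentiable ℂ (fun ξ : ℂ => h (ξ • z)) := fun ξ =>
  (slice_hasDerivAt hh z ξ).differentiableAt

lemma rad_slice {h : (Fin n → ℂ) → ℂ} (hh : Differentiable ℂ h) (z : Fin n → ℂ) (ξ : ℂ) :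
    rad h (ξ • z) = ξ * deriv (fun ξ : ℂ => h (ξ • z)) ξ := by
  rw [rad_eq, (slice_hasDerivAt hh z ξ).deriv, map_smul, smul_eq_mul]

/-- local sup bounds from `L^p` means, for an entire function of one variable -/
lemma sup_le {g : ℂ → ℂ} (hg : Differentiable ℂ g) {p r : ℝ} (hp : 0 < p) (hr : 0 < r) {c ξ : ℂ}
    {ρ : ℝ} (hsub : ball ξ r ⊆ ball c ρ) (hI : ∫⁻ z in ball c ρ, ‖g z‖ₑ ^ p ≠ ⊤) :
    ‖g ξ‖ ≤ ((∫⁻ z in ball c ρ, ‖g z‖ₑ ^ p).toReal / (Real.pi * r ^ 2)) ^ (1 / p) := by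
  have h1 := Pool.Agent.H402R2.SubMean.rpow_mul_le_lintegral (g := g) (w := ξ) hr hp
    hg.differentiableOn
  have h2 : ENNReal.ofReal (‖g ξ‖ ^ p * (Real.pi * r ^ 2)) ≤ ∫⁻ z in ball c ρ, ‖g z‖ₑ ^ p :=
    h1.trans (lintegral_mono_set hsub)
  have h3 : ‖g ξ‖ ^ p * (Real.pi * r ^ 2) ≤ (∫⁻ z in ball c ρ, ‖g z‖ₑ ^ p).toReal := by
    rw [← ENNReal.ofReal_le_iff_le_toReal hI]
    exact h2
  have hpos : 0 < Real.pi * r ^ 2 := by positivity
  have h4 : ‖g ξ‖ ^ p ≤ (∫⁻ z in ball c ρ, ‖g z‖ₑ ^ p).toReal / (Real.pi * r ^ 2) := by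
    rw [le_div_iff₀ hpos]
    exact h3
  calc ‖g ξ‖ = (‖g ξ‖ ^ p) ^ (1 / p) := by
        rw [← Real.rpow_mul (norm_nonneg _), mul_one_div_cancel hp.ne', Real.rpow_one]
    _ ≤ _ := Real.rpow_le_rpow (by positivity) h4 (by positivity)

lemma enorm_rpow (w : ℂ) {p : ℝ} (hp : 0 < p) : ‖w‖ₑ ^ p = ENNReal.ofReal (‖w‖ ^ p) := by
  rw [← ofReal_norm, ENNReal.ofReal_rpow_of_nonneg (norm_nonneg _) hp.le]

/-- transfer of a bound by local sup norms into a bound by local means -/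
lemma mean_bound {g : ℂ → ℂ} {p r ρ a x : ℝ} (hp : 0 < p) (hr : 0 < r) {c : ℂ}
    (ha : 0 < a) (hx : 0 ≤ x)
    (h : ∫⁻ z in ball c ρ, ‖g z‖ₑ ^ p ≠ ⊤ →
      x ≤ a * ((∫⁻ z in ball c ρ, ‖g z‖ₑ ^ p).toReal / (Real.pi * r ^ 2)) ^ (1 / p)) :
    ENNReal.ofReal (x ^ p) ≤
      ENNReal.ofReal (a ^ p / (Real.pi * r ^ 2)) * ∫⁻ z in ball c ρ, ‖g z‖ₑ ^ p := by
  have hpos : 0 < Real.pi * r ^ 2 := by positivity
  by_cases hI : ∫⁻ z in ball c ρ, ‖g z‖ₑ ^ p = ⊤
  · rw [hI, ENNReal.mul_top]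
    · exact le_top
    · rw [Ne, ENNReal.ofReal_eq_zero, not_le]
      have : 0 < a ^ p := Real.rpow_pos_of_pos ha p
      positivity
  · set I := ∫⁻ z in ball c ρ, ‖g z‖ₑ ^ p with hIdef
    have h1 := h hI
    have hI0 : 0 ≤ I.toReal := ENNReal.toReal_nonneg
    have h2 : x ^ p ≤ (a ^ p / (Real.pi * r ^ 2)) * I.toReal := by
      calc x ^ p ≤ (a * (I.toReal / (Real.pi * r ^ 2)) ^ (1 / p)) ^ p :=
            Real.rpow_le_rpow hx h1 hp.le
        _ = a ^ p * (I.toReal / (Real.pi * r ^ 2)) := by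
            rw [Real.mul_rpow ha.le (by positivity), ← Real.rpow_mul (by positivity),
              one_div_mul_cancel hp.ne', Real.rpow_one]
        _ = _ := by ring
    calc ENNReal.ofReal (x ^ p) ≤ ENNReal.ofReal ((a ^ p / (Real.pi * r ^ 2)) * I.toReal) :=
          ENNReal.ofReal_le_ofReal h2
      _ = ENNReal.ofReal (a ^ p / (Real.pi * r ^ 2)) * ENNReal.ofReal I.toReal := by
          rw [ENNReal.ofReal_mul]
          have : 0 < a ^ p := Real.rpow_pos_of_pos ha p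
          positivity
      _ = _ := by rw [ENNReal.ofReal_toReal hI]

/-- the radial derivative is bounded by a local mean of the function -/
lemma rad_le_mean {h : (Fin n → ℂ) → ℂ} (hh : Differentiable ℂ h) (z : Fin n → ℂ) {p r : ℝ}
    (hp : 0 < p) (hr : 0 < r) :
    ENNReal.ofReal (‖rad h z‖ ^ p) ≤ ENNReal.ofReal ((1 / r) ^ p / (Real.pi * r ^ 2)) *
      ∫⁻ ξ in ball (1 : ℂ) (2 * r), ‖h (ξ • z)‖ₑ ^ p := by
  set g : ℂ → ℂ := fun ξ => h (ξ • z) with hg
  have hgd : Differentiable ℂ g := slice_differentiable hh z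
  refine mean_bound (g := g) (c := 1) hp hr (by positivity) (norm_nonneg _) fun hI => ?_
  have h1 : rad h z = deriv g 1 := by
    have := rad_slice hh z 1
    rwa [one_smul, one_mul] at this
  rw [h1]
  have h2 : ∀ ξ ∈ sphere (1 : ℂ) r, ‖g ξ‖ ≤
      ((∫⁻ z in ball (1 : ℂ) (2 * r), ‖g z‖ₑ ^ p).toReal / (Real.pi * r ^ 2)) ^ (1 / p) := by
    intro ξ hξ
    refine sup_le hgd hp hr (ball_subset_ball' ?_) hI
    rw [mem_sphere.1 hξ]
    linarith
  have h3 := Complex.norm_deriv_le_of_forall_mem_sphere_norm_le hr hgd.diffContOnCl h2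
  calc ‖deriv g 1‖ ≤ _ / r := h3
    _ = _ := by ring

/-- the difference of two values on a ray is bounded by a local mean of the radial derivative -/
lemma diff_le_mean {h : (Fin n → ℂ) → ℂ} (hh : Differentiable ℂ h) (z : Fin n → ℂ) {p r b lam : ℝ}
    (hp : 0 < p) (hr : 0 < r) (hb : 0 < b) (h1 : 1 / 2 ≤ lam) (h2 : lam ≤ 1)
    (h3 : 1 - lam ≤ b * r) :
    ENNReal.ofReal (‖h z - h ((lam : ℂ) • z)‖ ^ p) ≤
      ENNReal.ofReal ((2 * b * r) ^ p / (Real.pi * r ^ 2)) *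
      ∫⁻ ξ in ball (1 : ℂ) ((b + 1) * r), ‖rad h (ξ • z)‖ₑ ^ p := by
  set g : ℂ → ℂ := fun ξ => rad h (ξ • z) with hg
  have hgd : Differentiable ℂ g := slice_differentiable (rad_differentiable hh) z
  refine mean_bound (g := g) (c := 1) hp hr (by positivity) (norm_nonneg _) fun hI => ?_
  set C := ((∫⁻ z in ball (1 : ℂ) ((b + 1) * r), ‖g z‖ₑ ^ p).toReal / (Real.pi * r ^ 2)) ^ (1 / p)
    with hC
  have hC0 : 0 ≤ C := by positivity
  set u : ℂ → ℂ := fun ξ => h (ξ • z) with hu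
  have hud : Differentiable ℂ u := slice_differentiable hh z
  have hconv : Convex ℝ (segment ℝ (lam : ℂ) 1) := convex_segment _ _
  have hseg : ∀ ξ ∈ segment ℝ (lam : ℂ) 1, ∃ t : ℝ, lam ≤ t ∧ t ≤ 1 ∧ ξ = (t : ℂ) := by
    rintro ξ ⟨x, y, hx, hy, hxy, rfl⟩
    refine ⟨x * lam + y, ?_, ?_, ?_⟩
    · nlinarith
    · nlinarith
    · push_cast
      simp
  have hbd : ∀ ξ ∈ segment ℝ (lam : ℂ) 1, ‖deriv u ξ‖ ≤ 2 * C := by
    intro ξ hξ
    obtain ⟨t, ht1, ht2, rfl⟩ := hseg ξ hξ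
    have h4 : ‖g (t : ℂ)‖ ≤ C := by
      refine sup_le hgd hp hr (ball_subset_ball' ?_) hI
      rw [dist_eq_norm, ← Complex.ofReal_one, ← Complex.ofReal_sub, Complex.norm_real,
        Real.norm_eq_abs, abs_sub_comm, abs_of_nonneg (by linarith)]
      nlinarith
    have h5 : g (t : ℂ) = (t : ℂ) * deriv u (t : ℂ) := rad_slice hh z t
    rw [h5, norm_mul, Complex.norm_real, Real.norm_eq_abs, abs_of_nonneg (by linarith)] at h4
    nlinarith [norm_nonneg (deriv u (t : ℂ))]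
  have h6 := hconv.norm_image_sub_le_of_norm_deriv_le (f := u) (C := 2 * C)
    (fun x _ => hud x) hbd (left_mem_segment ℝ (lam : ℂ) 1) (right_mem_segment ℝ (lam : ℂ) 1)
  have h7 : ‖(1 : ℂ) - (lam : ℂ)‖ = 1 - lam := by
    rw [← Complex.ofReal_one, ← Complex.ofReal_sub, Complex.norm_real, Real.norm_eq_abs,
      abs_of_nonneg (by linarith)]
  have h8 : u 1 = h z := by
    rw [hu]
    simp
  rw [h7, h8] at h6
  calc ‖h z - h ((lam : ℂ) • z)‖ ≤ 2 * C * (1 - lam) := h6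
    _ ≤ 2 * C * (b * r) := by
        apply mul_le_mul_of_nonneg_left h3
        positivity
    _ = 2 * b * r * C := by ring

end Pool.Agent.V7H93.Fock
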