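import Pool.Agent.V7H93.Fock.A

set_option autoImplicit false
open MeasureTheory Metric Set Filter Topology
open scoped ENNReal

namespace Pool.Agent.V7H93.Fock

variable {n : ℕ}

/-- complex dilations change Lebesgue measure by a constant -/
lemma lintegral_dilate {ξ : ℂ} (hξ : ξ ≠ 0) {F : (Fin n → ℂ) → ℝ≥0∞} (hF : Measurable F) :
    ∫⁻ z, F (ξ • z) = ENNReal.ofReal ((‖ξ‖ ^ 2)⁻¹ ^ n) * ∫⁻ z, F z := by
  set L : (Fin n → ℂ) →ₗ[ℂ] (Fin n → ℂ) := ξ • LinearMap.id with hL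
  set f : (Fin n → ℂ) →ₗ[ℝ] (Fin n → ℂ) := L.restrictScalars ℝ with hf
  have hdet : LinearMap.det f = (‖ξ‖ ^ 2) ^ n := by
    rw [hf, LinearMap.det_restrictScalars, hL, LinearMap.det_smul, LinearMap.det_id, mul_one,
      map_pow, Algebra.norm_complex_apply, Complex.normSq_eq_norm_sq]
    simp
  have hne : LinearMap.det f ≠ 0 := by
    rw [hdet]
    have : 0 < ‖ξ‖ := norm_pos_iff.2 hξ
    positivity
  have h1 := Measure.map_linearMap_addHaar_eq_smul_addHaar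
    (volume : Measure (Fin n → ℂ)) hne
  have hfun : ∀ z, f z = ξ • z := fun z => rfl
  have hmeas : Measurable (fun z : Fin n → ℂ => f z) := by
    have : Continuous (fun z : Fin n → ℂ => ξ • z) := by fun_prop
    exact this.measurable
  calc ∫⁻ z, F (ξ • z) = ∫⁻ z, F (f z) := rfl
    _ = ∫⁻ z, F z ∂(Measure.map f volume) := (lintegral_map hF hmeas).symm
    _ = ENNReal.ofReal |(LinearMap.det f)⁻¹| * ∫⁻ z, F z := by
        rw [h1, lintegral_smul_measure, smul_eq_mul]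
    _ = _ := by
        rw [hdet, abs_of_nonneg (by positivity), inv_pow]

lemma lintegral_dilate_le {ξ : ℂ} (hξ : 1 / 2 ≤ ‖ξ‖) {F : (Fin n → ℂ) → ℝ≥0∞}
    (hF : Measurable F) :
    ∫⁻ z, F (ξ • z) ≤ 4 ^ n * ∫⁻ z, F z := by
  have h0 : ξ ≠ 0 := by
    intro h
    rw [h, norm_zero] at hξ
    linarith
  rw [lintegral_dilate h0 hF]
  gcongr
  have h1 : (‖ξ‖ ^ 2)⁻¹ ≤ 4 := by
    rw [inv_le_comm₀ (by positivity) (by norm_num)]
    nlinarith
  calc ENNReal.ofReal ((‖ξ‖ ^ 2)⁻¹ ^ n) ≤ ENNReal.ofReal (4 ^ n) :=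
        ENNReal.ofReal_le_ofReal (pow_le_pow_left₀ (by positivity) h1 n)
    _ = 4 ^ n := by
        rw [ENNReal.ofReal_pow (by norm_num)]
        norm_num

/-- the weight -/
noncomputable def wt (α : ℝ) (s : ℕ) (z : Fin n → ℂ) : ℝ :=
  ((1 + nsq z) ^ s)⁻¹ * Real.exp (-(α * nsq z / 2))

lemma wt_pos (α : ℝ) (s : ℕ) (z : Fin n → ℂ) : 0 < wt α s z := by
  have := nsq_nonneg z
  unfold wt
  positivity

lemma wt_succ (α : ℝ) (s : ℕ) (z : Fin n → ℂ) : wt α (s + 1) z = (1 + nsq z)⁻¹ * wt α s z := by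
  unfold wt
  rw [pow_succ, mul_inv]
  ring

lemma wt_continuous (α : ℝ) (s : ℕ) : Continuous (wt α s : (Fin n → ℂ) → ℝ) := by
  unfold wt
  have h := nsq_continuous (n := n)
  refine Continuous.mul (Continuous.inv₀ (by fun_prop) ?_) (by fun_prop)
  intro z
  have := nsq_nonneg z
  positivity

/-- comparison of the weights at `z` and `ξ z` -/
lemma wt_le {α : ℝ} (hα : 0 ≤ α) (s : ℕ) {K : ℝ} {ξ : ℂ} {z : Fin n → ℂ}
    (h1 : K / (1 + nsq z) ≤ 1 / 2) (h2 : ‖ξ - 1‖ ≤ K / (1 + nsq z)) :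
    wt α s z ≤ ((9 / 4) ^ s * Real.exp (5 / 4 * α * K)) * wt α s (ξ • z) := by
  have hz := nsq_nonneg z
  have hpos : 0 < 1 + nsq z := by linarith
  have hxi : ‖ξ‖ ≤ 1 + ‖ξ - 1‖ := by
    calc ‖ξ‖ = ‖1 + (ξ - 1)‖ := by ring_nf
      _ ≤ ‖(1 : ℂ)‖ + ‖ξ - 1‖ := norm_add_le _ _
      _ = _ := by rw [norm_one]
  have hd : ‖ξ - 1‖ ≤ 1 / 2 := h2.trans h1
  have hd0 := norm_nonneg (ξ - 1)
  have hx0 := norm_nonneg ξ
  have hsq : ‖ξ‖ ^ 2 ≤ 1 + 5 / 2 * ‖ξ - 1‖ := by nlinarith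
  have hn : nsq (ξ • z) ≤ nsq z + 5 / 2 * K := by
    rw [nsq_smul]
    have h3 : ‖ξ - 1‖ * nsq z ≤ K := by
      have h4 : ‖ξ - 1‖ * (1 + nsq z) ≤ K := by
        rwa [le_div_iff₀ hpos] at h2
      nlinarith
    nlinarith
  have hn2 : 1 + nsq (ξ • z) ≤ 9 / 4 * (1 + nsq z) := by
    rw [nsq_smul]
    have h5 : ‖ξ‖ ^ 2 ≤ 9 / 4 := by nlinarith
    nlinarith
  have hw := nsq_nonneg (ξ • z)
  unfold wt
  have e1 : ((1 + nsq z) ^ s)⁻¹ ≤ (9 / 4) ^ s * ((1 + nsq (ξ • z)) ^ s)⁻¹ := by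
    rw [← inv_pow, ← inv_pow, ← mul_pow]
    apply pow_le_pow_left₀ (by positivity)
    rw [← div_eq_mul_inv, le_div_iff₀ (by linarith), ← div_eq_inv_mul, div_le_iff₀ hpos]
    exact hn2
  have e2 : Real.exp (-(α * nsq z / 2)) ≤
      Real.exp (5 / 4 * α * K) * Real.exp (-(α * nsq (ξ • z) / 2)) := by
    rw [← Real.exp_add]
    apply Real.exp_le_exp.2
    nlinarith
  calc ((1 + nsq z) ^ s)⁻¹ * Real.exp (-(α * nsq z / 2))
      ≤ ((9 / 4) ^ s * ((1 + nsq (ξ • z)) ^ s)⁻¹) *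
        (Real.exp (5 / 4 * α * K) * Real.exp (-(α * nsq (ξ • z) / 2))) := by gcongr
    _ = _ := by ring

lemma norm_half {ξ : ℂ} (h : ‖ξ - 1‖ ≤ 1 / 2) : 1 / 2 ≤ ‖ξ‖ := by
  have h1 : ‖(1 : ℂ)‖ ≤ ‖ξ‖ + ‖ξ - 1‖ := by
    calc ‖(1 : ℂ)‖ = ‖ξ - (ξ - 1)‖ := by ring_nf
      _ ≤ _ := norm_sub_le _ _
  rw [norm_one] at h1
  linarith

/-- the integral of local means is bounded by the integral -/
lemma mean_integral {α : ℝ} (hα : 0 ≤ α) (s : ℕ) {p K : ℝ} (hp : 0 < p) (hK : 0 < K) :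
    ∃ C : ℝ≥0∞, C ≠ ⊤ ∧ ∀ G : (Fin n → ℂ) → ℝ≥0∞, Measurable G →
      ∫⁻ z, {z : Fin n → ℂ | K / (1 + nsq z) ≤ 1 / 2}.indicator
        (fun z => ENNReal.ofReal (wt α s z ^ p * (1 + nsq z) ^ 2) *
          ∫⁻ ξ in ball (1 : ℂ) (K / (1 + nsq z)), G (ξ • z)) z ≤
      C * ∫⁻ w, G w * ENNReal.ofReal (wt α s w ^ p) := by
  set c0 : ℝ := (9 / 4) ^ s * Real.exp (5 / 4 * α * K) with hc0
  have hc0pos : 0 < c0 := by positivity
  set C1 : ℝ≥0∞ := ENNReal.ofReal (c0 ^ p * 16) with hC1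
  set C2 : ℝ≥0∞ := ENNReal.ofReal ((9 / 4 * K) ^ 2 * Real.pi) with hC2
  refine ⟨4 ^ n * (C1 * C2), ?_, ?_⟩
  · refine ENNReal.mul_ne_top (ENNReal.pow_ne_top (by norm_num)) (ENNReal.mul_ne_top ?_ ?_)
    · exact ENNReal.ofReal_ne_top
    · exact ENNReal.ofReal_ne_top
  intro G hG
  have hnc := nsq_continuous (n := n)
  have hwc := wt_continuous (n := n) α s
  -- the comparison function
  set Θ : ℂ → (Fin n → ℂ) → ℝ≥0∞ := fun ξ w =>
    {x : ℂ × (Fin n → ℂ) | ‖x.1 - 1‖ < 9 / 4 * K / (1 + nsq x.2)}.indicator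
      (fun x => C1 * (ENNReal.ofReal (wt α s x.2 ^ p * (1 + nsq x.2) ^ 2) * G x.2)) (ξ, w) with hΘ
  have hset : MeasurableSet {x : ℂ × (Fin n → ℂ) | ‖x.1 - 1‖ < 9 / 4 * K / (1 + nsq x.2)} := by
    apply measurableSet_lt
    · fun_prop
    · exact (measurable_const.div ((measurable_const.add (hnc.measurable.comp measurable_snd))))
  have hinner : Measurable (fun w : Fin n → ℂ =>
      C1 * (ENNReal.ofReal (wt α s w ^ p * (1 + nsq w) ^ 2) * G w)) := by
    refine measurable_const.mul (Measurable.mul ?_ hG)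
    refine ENNReal.measurable_ofReal.comp ?_
    exact (hwc.measurable.pow_const p).mul
      ((measurable_const.add hnc.measurable).pow_const 2)
  have hΘm : Measurable (Function.uncurry Θ) :=
    (hinner.comp measurable_snd).indicator hset
  have hΘm1 : ∀ ξ, Measurable (Θ ξ) := fun ξ => hΘm.comp measurable_prodMk_left
  have hsm : Measurable (fun x : ℂ × (Fin n → ℂ) => (x.1, x.1 • x.2)) := by
    have : Continuous (fun x : ℂ × (Fin n → ℂ) => (x.1, x.1 • x.2)) := by fun_prop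
    exact this.measurable
  have hΘm2 : Measurable (fun x : ℂ × (Fin n → ℂ) => Θ x.1 (x.1 • x.2)) := hΘm.comp hsm
  -- pointwise bound
  have hpt : ∀ z : Fin n → ℂ, {z : Fin n → ℂ | K / (1 + nsq z) ≤ 1 / 2}.indicator
        (fun z => ENNReal.ofReal (wt α s z ^ p * (1 + nsq z) ^ 2) *
          ∫⁻ ξ in ball (1 : ℂ) (K / (1 + nsq z)), G (ξ • z)) z ≤
      ∫⁻ ξ in closedBall (1 : ℂ) (1 / 2), Θ ξ (ξ • z) := by
    intro z
    by_cases hz : K / (1 + nsq z) ≤ 1 / 2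
    swap
    · rw [indicator_of_notMem (by exact hz)]
      exact bot_le
    rw [indicator_of_mem (by exact hz)]
    have hmG : Measurable (fun ξ : ℂ => G (ξ • z)) := by
      refine hG.comp ?_
      have : Continuous (fun ξ : ℂ => ξ • z) := by fun_prop
      exact this.measurable
    rw [← lintegral_const_mul _ hmG]
    have hsub : ball (1 : ℂ) (K / (1 + nsq z)) ⊆ closedBall (1 : ℂ) (1 / 2) :=
      (ball_subset_ball hz).trans ball_subset_closedBall
    calc ∫⁻ ξ in ball (1 : ℂ) (K / (1 + nsq z)),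
          ENNReal.ofReal (wt α s z ^ p * (1 + nsq z) ^ 2) * G (ξ • z)
        ≤ ∫⁻ ξ in ball (1 : ℂ) (K / (1 + nsq z)), Θ ξ (ξ • z) := by
          refine setLIntegral_mono' measurableSet_ball fun ξ hξ => ?_
          rw [mem_ball, dist_eq_norm] at hξ
          have hd : ‖ξ - 1‖ ≤ 1 / 2 := hξ.le.trans hz
          have hz0 := nsq_nonneg z
          have hz1 : 0 < 1 + nsq z := by linarith
          have hw0 := nsq_nonneg (ξ • z)
          have hhalf := norm_half hd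
          have hxi : ‖ξ‖ ≤ 3 / 2 := by
            calc ‖ξ‖ = ‖1 + (ξ - 1)‖ := by ring_nf
              _ ≤ ‖(1 : ℂ)‖ + ‖ξ - 1‖ := norm_add_le _ _
              _ ≤ _ := by rw [norm_one]; linarith
          have hmem : ‖ξ - 1‖ < 9 / 4 * K / (1 + nsq (ξ • z)) := by
            refine lt_of_lt_of_le hξ ?_
            rw [div_le_div_iff₀ hz1 (by linarith)]
            have : 1 + nsq (ξ • z) ≤ 9 / 4 * (1 + nsq z) := by
              rw [nsq_smul]
              have h5 : ‖ξ‖ ^ 2 ≤ 9 / 4 := by nlinarith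
              nlinarith
            nlinarith
          have hΘe : Θ ξ (ξ • z) =
              C1 * (ENNReal.ofReal (wt α s (ξ • z) ^ p * (1 + nsq (ξ • z)) ^ 2) * G (ξ • z)) := by
            rw [hΘ]
            exact indicator_of_mem (by exact hmem) _
          rw [hΘe, ← mul_assoc]
          gcongr
          rw [hC1, ← ENNReal.ofReal_mul (by positivity)]
          apply ENNReal.ofReal_le_ofReal
          have h6 := wt_le hα s hz hξ.le
          have h7 : wt α s z ^ p ≤ c0 ^ p * wt α s (ξ • z) ^ p := by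
            rw [← Real.mul_rpow hc0pos.le (wt_pos α s _).le]
            exact Real.rpow_le_rpow (wt_pos α s _).le h6 hp.le
          have h8 : (1 + nsq z) ^ 2 ≤ 16 * (1 + nsq (ξ • z)) ^ 2 := by
            have h9 : 1 + nsq z ≤ 4 * (1 + nsq (ξ • z)) := by
              rw [nsq_smul]
              have : 1 / 4 ≤ ‖ξ‖ ^ 2 := by nlinarith
              nlinarith
            nlinarith
          have h10 : 0 ≤ wt α s (ξ • z) ^ p := (Real.rpow_pos_of_pos (wt_pos α s _) p).le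
          have h11 : 0 ≤ wt α s z ^ p := (Real.rpow_pos_of_pos (wt_pos α s _) p).le
          have h12 : 0 ≤ c0 ^ p := (Real.rpow_pos_of_pos hc0pos p).le
          calc wt α s z ^ p * (1 + nsq z) ^ 2
              ≤ (c0 ^ p * wt α s (ξ • z) ^ p) * (16 * (1 + nsq (ξ • z)) ^ 2) := by gcongr
            _ = _ := by ring
      _ ≤ _ := lintegral_mono_set hsub
  -- volume of the fibres
  have hfib : ∀ w : Fin n → ℂ, ∫⁻ ξ : ℂ, Θ ξ w ≤
      (C1 * C2) * (G w * ENNReal.ofReal (wt α s w ^ p)) := by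
    intro w
    have hw0 := nsq_nonneg w
    have hw1 : 0 < 1 + nsq w := by linarith
    have e1 : (fun ξ : ℂ => Θ ξ w) = (ball (1 : ℂ) (9 / 4 * K / (1 + nsq w))).indicator
        (fun _ => C1 * (ENNReal.ofReal (wt α s w ^ p * (1 + nsq w) ^ 2) * G w)) := by
      funext ξ
      rw [hΘ]
      simp only [indicator, mem_ofPred_eq, mem_ball, dist_eq_norm]
    rw [e1, lintegral_indicator measurableSet_ball, setLIntegral_const, Complex.volume_ball]
    have e2 : (ENNReal.ofReal (9 / 4 * K / (1 + nsq w)) ^ 2 * (NNReal.pi : ℝ≥0∞)) =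
        ENNReal.ofReal ((9 / 4 * K / (1 + nsq w)) ^ 2 * Real.pi) := by
      rw [ENNReal.ofReal_mul (by positivity), ENNReal.ofReal_pow (by positivity)]
      congr 1
      rw [← NNReal.coe_real_pi, ENNReal.ofReal_coe_nnreal]
    rw [e2]
    have e3 : ENNReal.ofReal (wt α s w ^ p * (1 + nsq w) ^ 2) *
        ENNReal.ofReal ((9 / 4 * K / (1 + nsq w)) ^ 2 * Real.pi) =
        C2 * ENNReal.ofReal (wt α s w ^ p) := by
      have h11 : 0 ≤ wt α s w ^ p := (Real.rpow_pos_of_pos (wt_pos α s _) p).le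
      rw [hC2, ← ENNReal.ofReal_mul (by positivity), ← ENNReal.ofReal_mul (by positivity)]
      congr 1
      field_simp
    calc C1 * (ENNReal.ofReal (wt α s w ^ p * (1 + nsq w) ^ 2) * G w) *
          ENNReal.ofReal ((9 / 4 * K / (1 + nsq w)) ^ 2 * Real.pi)
        = C1 * G w * (ENNReal.ofReal (wt α s w ^ p * (1 + nsq w) ^ 2) *
          ENNReal.ofReal ((9 / 4 * K / (1 + nsq w)) ^ 2 * Real.pi)) := by ring
      _ = (C1 * C2) * (G w * ENNReal.ofReal (wt α s w ^ p)) := by rw [e3]; ring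
      _ ≤ _ := le_rfl
  calc _ ≤ ∫⁻ z, ∫⁻ ξ in closedBall (1 : ℂ) (1 / 2), Θ ξ (ξ • z) := lintegral_mono hpt
    _ = ∫⁻ ξ in closedBall (1 : ℂ) (1 / 2), ∫⁻ z, Θ ξ (ξ • z) := by
        rw [lintegral_lintegral_swap]
        have : Measurable (fun x : (Fin n → ℂ) × ℂ => Θ x.2 (x.2 • x.1)) :=
          hΘm2.comp measurable_swap
        exact this.aemeasurable
    _ ≤ ∫⁻ ξ in closedBall (1 : ℂ) (1 / 2), 4 ^ n * ∫⁻ w, Θ ξ w := by
        refine setLIntegral_mono' measurableSet_closedBall fun ξ hξ => ?_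
        rw [mem_closedBall, dist_eq_norm] at hξ
        exact lintegral_dilate_le (norm_half hξ) (hΘm1 ξ)
    _ ≤ ∫⁻ ξ : ℂ, 4 ^ n * ∫⁻ w, Θ ξ w := setLIntegral_le_lintegral _ _
    _ = 4 ^ n * ∫⁻ ξ : ℂ, ∫⁻ w, Θ ξ w := by
        rw [lintegral_const_mul]
        exact hΘm.lintegral_prod_right
    _ = 4 ^ n * ∫⁻ w, ∫⁻ ξ : ℂ, Θ ξ w := by
        rw [lintegral_lintegral_swap hΘm.aemeasurable]
    _ ≤ 4 ^ n * ∫⁻ w, (C1 * C2) * (G w * ENNReal.ofReal (wt α s w ^ p)) := by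
        gcongr with w
        exact hfib w
    _ = _ := by
        rw [lintegral_const_mul, ← mul_assoc]
        exact hG.mul (ENNReal.measurable_ofReal.comp (hwc.measurable.pow_const p))

end Pool.Agent.V7H93.Fock
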