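import Pool.Agent.V7H93.Fock.B

set_option autoImplicit false
open MeasureTheory Metric Set Filter Topology
open scoped ENNReal

namespace Pool.Agent.V7H93.Fock

variable {n : ℕ}

/-- the integral of the `p`-th power with the weight -/
noncomputable def Lf (α : ℝ) (s : ℕ) (p : ℝ) (F : (Fin n → ℂ) → ℂ) : ℝ≥0∞ :=
  ∫⁻ z, ENNReal.ofReal ((‖F z‖ * wt α s z) ^ p)

lemma enorm_mul_wt (α : ℝ) (s : ℕ) {p : ℝ} (hp : 0 < p) (w : ℂ) (z : Fin n → ℂ) :
    ‖w‖ₑ ^ p * ENNReal.ofReal (wt α s z ^ p) = ENNReal.ofReal ((‖w‖ * wt α s z) ^ p) := by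
  rw [enorm_rpow w hp, ← ENNReal.ofReal_mul (by positivity),
    Real.mul_rpow (norm_nonneg _) (wt_pos α s z).le]

/-- from the function to its radial derivative -/
theorem step_up {α : ℝ} (hα : 0 ≤ α) (s : ℕ) {p : ℝ} (hp : 0 < p) {h : (Fin n → ℂ) → ℂ}
    (hh : Differentiable ℂ h) (hL : Lf α s p h ≠ ⊤) : Lf α (s + 1) p (rad h) ≠ ⊤ := by
  obtain ⟨C, hC, hmean⟩ := mean_integral (n := n) hα s hp (K := 1 / 2) (by norm_num)
  have hG : Measurable (fun w : Fin n → ℂ => ‖h w‖ₑ ^ p) := by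
    exact (hh.continuous.measurable.enorm).pow_const p
  have h1 := hmean _ hG
  have h2 : ∫⁻ w, ‖h w‖ₑ ^ p * ENNReal.ofReal (wt α s w ^ p) = Lf α s p h := by
    unfold Lf
    exact lintegral_congr fun w => enorm_mul_wt α s hp _ w
  rw [h2] at h1
  set A : ℝ := 4 ^ p * (16 / Real.pi) with hA
  have hA0 : 0 < A := by positivity
  have hkey : ∀ z : Fin n → ℂ, ENNReal.ofReal ((‖rad h z‖ * wt α (s + 1) z) ^ p) ≤
      ENNReal.ofReal A * {z : Fin n → ℂ | 1 / 2 / (1 + nsq z) ≤ 1 / 2}.indicator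
        (fun z => ENNReal.ofReal (wt α s z ^ p * (1 + nsq z) ^ 2) *
          ∫⁻ ξ in ball (1 : ℂ) (1 / 2 / (1 + nsq z)), ‖h (ξ • z)‖ₑ ^ p) z := by
    intro z
    have hz := nsq_nonneg z
    have hz1 : 0 < 1 + nsq z := by linarith
    have hmem : 1 / 2 / (1 + nsq z) ≤ 1 / 2 := by
      rw [div_le_iff₀ hz1]
      linarith
    rw [indicator_of_mem (by exact hmem)]
    have hr : 0 < (4 * (1 + nsq z))⁻¹ := by positivity
    have h3 := rad_le_mean hh z hp hr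
    have h4 : 2 * (4 * (1 + nsq z))⁻¹ = 1 / 2 / (1 + nsq z) := by
      field_simp
      norm_num
    rw [h4] at h3
    have hw := wt_pos α s z
    have hw1 := wt_pos α (s + 1) z
    rw [Real.mul_rpow (norm_nonneg _) hw1.le, ENNReal.ofReal_mul (by positivity)]
    calc ENNReal.ofReal (‖rad h z‖ ^ p) * ENNReal.ofReal (wt α (s + 1) z ^ p)
        ≤ (ENNReal.ofReal ((1 / (4 * (1 + nsq z))⁻¹) ^ p / (Real.pi * (4 * (1 + nsq z))⁻¹ ^ 2)) *
            ∫⁻ ξ in ball (1 : ℂ) (1 / 2 / (1 + nsq z)), ‖h (ξ • z)‖ₑ ^ p) *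
            ENNReal.ofReal (wt α (s + 1) z ^ p) := by gcongr
      _ = (ENNReal.ofReal ((1 / (4 * (1 + nsq z))⁻¹) ^ p / (Real.pi * (4 * (1 + nsq z))⁻¹ ^ 2)) *
            ENNReal.ofReal (wt α (s + 1) z ^ p)) *
            ∫⁻ ξ in ball (1 : ℂ) (1 / 2 / (1 + nsq z)), ‖h (ξ • z)‖ₑ ^ p := by ring
      _ = (ENNReal.ofReal A * ENNReal.ofReal (wt α s z ^ p * (1 + nsq z) ^ 2)) *
            ∫⁻ ξ in ball (1 : ℂ) (1 / 2 / (1 + nsq z)), ‖h (ξ • z)‖ₑ ^ p := by
          congr 1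
          rw [← ENNReal.ofReal_mul (by positivity), ← ENNReal.ofReal_mul (by positivity)]
          congr 1
          rw [wt_succ, Real.mul_rpow (by positivity) hw.le, one_div, inv_inv,
            Real.mul_rpow (by norm_num) hz1.le, hA, Real.inv_rpow hz1.le]
          have : (1 + nsq z) ^ p ≠ 0 := (Real.rpow_pos_of_pos hz1 p).ne'
          field_simp
          norm_num
      _ = _ := by rw [mul_assoc]
  have h5 : Lf α (s + 1) p (rad h) ≤ ENNReal.ofReal A * (C * Lf α s p h) := by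
    unfold Lf at h1 ⊢
    refine (lintegral_mono hkey).trans ?_
    rw [lintegral_const_mul' _ _ ENNReal.ofReal_ne_top]
    gcongr
  exact ne_top_of_le_ne_top
    (ENNReal.mul_ne_top ENNReal.ofReal_ne_top (ENNReal.mul_ne_top hC hL)) h5

/-- the dilation factor of the shell number `k` -/
noncomputable def lam (c : ℝ) (k : ℕ) : ℝ := 1 - c / (k + 1)

lemma lam_bounds {c : ℝ} (hc : 0 ≤ c) {k : ℕ} (hk : 2 * c ≤ k + 1) :
    1 / 2 ≤ lam c k ∧ lam c k ≤ 1 := by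
  have h1 : (0 : ℝ) < (k : ℝ) + 1 := by positivity
  unfold lam
  constructor
  · have : c / (k + 1) ≤ 1 / 2 := by
      rw [div_le_iff₀ h1]
      linarith
    linarith
  · have : 0 ≤ c / (k + 1) := by positivity
    linarith

/-- the image of the shell number `k` -/
def shell (c : ℝ) (k : ℕ) : Set (Fin n → ℂ) :=
  {w | lam c k ^ 2 * k ≤ nsq w ∧ nsq w < lam c k ^ 2 * (k + 1)}

lemma overlap {c t : ℝ} (hc : 0 ≤ c) {k0 M : ℕ} (hk0 : 2 * c ≤ k0 + 1) :
    ((Finset.Ico k0 M).filter (fun k : ℕ => lam c k ^ 2 * k ≤ t ∧ t < lam c k ^ 2 * (k + 1))).card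
      ≤ 2 := by
  set T := (Finset.Ico k0 M).filter
    (fun k : ℕ => lam c k ^ 2 * k ≤ t ∧ t < lam c k ^ 2 * (k + 1)) with hT
  by_cases hne : T.Nonempty
  swap
  · rw [Finset.not_nonempty_iff_eq_empty.1 hne]
    simp
  set m := T.min' hne with hm
  have hmT : m ∈ T := T.min'_mem hne
  have hsub : T ⊆ {m, m + 1} := by
    intro l hl
    have hml : m ≤ l := T.min'_le l hl
    rw [Finset.mem_insert, Finset.mem_singleton]
    by_contra hcon
    push Not at hcon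
    have hl2 : m + 2 ≤ l := by
      obtain ⟨h1, h2⟩ := hcon
      omega
    rw [hT, Finset.mem_filter, Finset.mem_Ico] at hmT hl
    obtain ⟨⟨hm1, -⟩, hm2, hm3⟩ := hmT
    obtain ⟨⟨hl1, -⟩, hl3, hl4⟩ := hl
    have hmR : (2 * c : ℝ) ≤ (m : ℝ) + 1 := by
      have : (k0 : ℝ) ≤ m := by exact_mod_cast hm1
      linarith
    have hlm : (m : ℝ) + 2 ≤ l := by exact_mod_cast hl2
    have hlR : (2 * c : ℝ) ≤ (l : ℝ) + 1 := by linarith
    have hbm := lam_bounds hc hmR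
    have hbl := lam_bounds hc hlR
    have hm0 : (0 : ℝ) < (m : ℝ) + 1 := by positivity
    have hl0 : (0 : ℝ) < (l : ℝ) + 1 := by positivity
    have em : lam c m ^ 2 * ((m : ℝ) + 1) = (m : ℝ) + 1 - 2 * c + c ^ 2 / ((m : ℝ) + 1) := by
      unfold lam
      field_simp
      ring
    have el : lam c l ^ 2 * ((l : ℝ) + 1) = (l : ℝ) + 1 - 2 * c + c ^ 2 / ((l : ℝ) + 1) := by
      unfold lam
      field_simp
      ring
    have hc1 : c ^ 2 / ((m : ℝ) + 1) ≤ c / 2 := by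
      rw [div_le_iff₀ hm0]
      nlinarith
    have hcd : c ^ 2 / ((m : ℝ) + 1) - c ^ 2 / ((l : ℝ) + 1) ≤ ((l : ℝ) - m) / 4 := by
      have : c ^ 2 / ((m : ℝ) + 1) - c ^ 2 / ((l : ℝ) + 1) =
          (c / ((m : ℝ) + 1)) * (c / ((l : ℝ) + 1)) * ((l : ℝ) - m) := by
        field_simp
        ring
      rw [this]
      have h5 : c / ((m : ℝ) + 1) ≤ 1 / 2 := by
        rw [div_le_iff₀ hm0]; linarith
      have h6 : c / ((l : ℝ) + 1) ≤ 1 / 2 := by
        rw [div_le_iff₀ hl0]; linarith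
      have h7 : 0 ≤ c / ((m : ℝ) + 1) := by positivity
      have h8 : 0 ≤ c / ((l : ℝ) + 1) := by positivity
      have h9 : (c / ((m : ℝ) + 1)) * (c / ((l : ℝ) + 1)) ≤ 1 / 4 := by nlinarith
      nlinarith
    have hlam2 : lam c l ^ 2 ≤ 1 := by nlinarith
    have h10 : lam c l ^ 2 * (l : ℝ) = lam c l ^ 2 * ((l : ℝ) + 1) - lam c l ^ 2 := by ring
    rw [em] at hm3
    rw [h10, el] at hl3
    nlinarith
  calc T.card ≤ ({m, m + 1} : Finset ℕ).card := Finset.card_le_card hsub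
    _ ≤ 2 := Finset.card_le_two

lemma wt_dilate {α : ℝ} (hα : 0 ≤ α) (s : ℕ) {c : ℝ} (hc : 0 ≤ c) {k : ℕ} (hk1 : 1 ≤ k)
    (hk : 2 * c ≤ k + 1) {z : Fin n → ℂ} (hz : (k : ℝ) ≤ nsq z) :
    wt α s z ≤ Real.exp (-(α * c / 4)) * wt α s (((lam c k : ℝ) : ℂ) • z) := by
  have hb := lam_bounds hc hk
  have hn : nsq (((lam c k : ℝ) : ℂ) • z) = lam c k ^ 2 * nsq z := by
    rw [nsq_smul, Complex.norm_real, Real.norm_eq_abs, sq_abs]
  have hz0 := nsq_nonneg z
  have hk0 : (0 : ℝ) < (k : ℝ) + 1 := by positivity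
  have hk1' : (1 : ℝ) ≤ k := by exact_mod_cast hk1
  have hl2 : lam c k ^ 2 ≤ 1 := by nlinarith
  unfold wt
  rw [hn]
  have e1 : ((1 + nsq z) ^ s)⁻¹ ≤ ((1 + lam c k ^ 2 * nsq z) ^ s)⁻¹ := by
    apply inv_anti₀ (by positivity)
    apply pow_le_pow_left₀ (by positivity)
    nlinarith
  have e2 : Real.exp (-(α * nsq z / 2)) ≤
      Real.exp (-(α * c / 4)) * Real.exp (-(α * (lam c k ^ 2 * nsq z) / 2)) := by
    rw [← Real.exp_add]
    apply Real.exp_le_exp.2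
    have h1 : c / 2 ≤ (1 - lam c k ^ 2) * nsq z := by
      have h2 : c / ((k : ℝ) + 1) ≤ 1 - lam c k ^ 2 := by
        have : 1 - lam c k = c / ((k : ℝ) + 1) := by unfold lam; ring
        nlinarith
      have h3 : c / 2 ≤ c / ((k : ℝ) + 1) * nsq z := by
        rw [div_mul_eq_mul_div, div_le_div_iff₀ (by norm_num) hk0]
        nlinarith
      have h4 : 0 ≤ 1 - lam c k ^ 2 := by linarith
      calc c / 2 ≤ c / ((k : ℝ) + 1) * nsq z := h3
        _ ≤ _ := mul_le_mul_of_nonneg_right h2 hz0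
    nlinarith
  calc ((1 + nsq z) ^ s)⁻¹ * Real.exp (-(α * nsq z / 2))
      ≤ ((1 + lam c k ^ 2 * nsq z) ^ s)⁻¹ *
        (Real.exp (-(α * c / 4)) * Real.exp (-(α * (lam c k ^ 2 * nsq z) / 2))) := by gcongr
    _ = _ := by ring

lemma add_rpow_le {a b p : ℝ} (ha : 0 ≤ a) (hb : 0 ≤ b) (hp : 0 < p) :
    (a + b) ^ p ≤ 2 ^ p * (a ^ p + b ^ p) := by
  have h1 : a + b ≤ 2 * max a b := by
    rcases le_total a b with h | h
    · rw [max_eq_right h]; linarith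
    · rw [max_eq_left h]; linarith
  have h2 : (max a b) ^ p ≤ a ^ p + b ^ p := by
    have ha' : 0 ≤ a ^ p := Real.rpow_nonneg ha p
    have hb' : 0 ≤ b ^ p := Real.rpow_nonneg hb p
    rcases le_total a b with h | h
    · rw [max_eq_right h]; linarith
    · rw [max_eq_left h]; linarith
  calc (a + b) ^ p ≤ (2 * max a b) ^ p := Real.rpow_le_rpow (by positivity) h1 hp.le
    _ = 2 ^ p * (max a b) ^ p := Real.mul_rpow (by norm_num) (by positivity)
    _ ≤ _ := by gcongr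

end Pool.Agent.V7H93.Fock
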