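import Pool.Agent.V7H93.Fock.C

set_option autoImplicit false
open MeasureTheory Metric Set Filter Topology
open scoped ENNReal

namespace Pool.Agent.V7H93.Fock

variable {n : ℕ}

lemma exists_bound_nsq {F : (Fin n → ℂ) → ℝ} (hF : Continuous F) (M : ℝ) :
    ∃ B : ℝ, ∀ z : Fin n → ℂ, nsq z ≤ M → F z ≤ B := by
  have hc : IsCompact (closedBall (0 : Fin n → ℂ) (Real.sqrt M)) := isCompact_closedBall _ _
  obtain ⟨B, hB⟩ := hc.bddAbove_image hF.continuousOn
  refine ⟨B, fun z hz => hB (mem_image_of_mem _ ?_)⟩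
  rw [mem_closedBall, dist_zero_right]
  rw [pi_norm_le_iff_of_nonneg (Real.sqrt_nonneg _)]
  intro k
  apply Real.le_sqrt_of_sq_le
  refine le_trans ?_ hz
  unfold nsq
  exact Finset.single_le_sum (f := fun k => ‖z k‖ ^ 2) (fun _ _ => by positivity)
    (Finset.mem_univ k)

lemma volume_nsq_lt (M : ℝ) : (volume {z : Fin n → ℂ | nsq z < M}) < ⊤ := by
  have hc : IsCompact (closedBall (0 : Fin n → ℂ) (Real.sqrt M)) := isCompact_closedBall _ _
  refine lt_of_le_of_lt (measure_mono ?_) hc.measure_lt_top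
  intro z hz
  rw [mem_closedBall, dist_zero_right]
  rw [pi_norm_le_iff_of_nonneg (Real.sqrt_nonneg _)]
  intro k
  apply Real.le_sqrt_of_sq_le
  refine le_trans ?_ (le_of_lt hz)
  unfold nsq
  exact Finset.single_le_sum (f := fun k => ‖z k‖ ^ 2) (fun _ _ => by positivity)
    (Finset.mem_univ k)

/-- from the radial derivative back to the function -/
theorem step_down {α : ℝ} (hα : 0 < α) (s : ℕ) {p : ℝ} (hp : 0 < p) {h : (Fin n → ℂ) → ℂ}
    (hh : Differentiable ℂ h) (hL : Lf α (s + 1) p (rad h) ≠ ⊤) : Lf α s p h ≠ ⊤ := by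
  have hnc := nsq_continuous (n := n)
  have hwc := wt_continuous (n := n) α s
  -- the parameter `c`
  obtain ⟨c, hc0, hc⟩ : ∃ c : ℝ, 0 < c ∧
      2 ^ p * (2 * 4 ^ n * Real.exp (-(p * (α * c / 4)))) ≤ 1 / 2 := by
    have h1 : Tendsto (fun c : ℝ => 2 ^ p * (2 * 4 ^ n * Real.exp (-(p * (α * c / 4)))))
        atTop (𝓝 (2 ^ p * (2 * 4 ^ n * 0))) := by
      refine Tendsto.const_mul _ (Tendsto.const_mul _ ?_)
      refine Real.tendsto_exp_neg_atTop_nhds_zero.comp ?_
      refine Tendsto.const_mul_atTop hp ?_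
      have : (fun c : ℝ => α * c / 4) = fun c : ℝ => (α / 4) * c := by funext c; ring
      rw [this]
      exact tendsto_id.const_mul_atTop (by positivity)
    rw [mul_zero, mul_zero] at h1
    have h2 := h1.eventually (gt_mem_nhds (show (0 : ℝ) < 1 / 2 by norm_num))
    obtain ⟨c, hc1, hc2⟩ := (h2.and (eventually_gt_atTop 0)).exists
    exact ⟨c, hc2, hc1.le⟩
  -- the first shell
  obtain ⟨k0, hk0⟩ := exists_nat_gt (4 * c + 2)
  have hk01 : 1 ≤ k0 := by
    have : (0 : ℝ) < k0 := by linarith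
    exact_mod_cast this
  have hk0c : 2 * c ≤ (k0 : ℝ) + 1 := by linarith
  -- the weights
  set K : ℝ := 2 * c + 1 with hK
  have hKpos : 0 < K := by positivity
  obtain ⟨C, hC, hmean⟩ := mean_integral (n := n) hα.le (s + 1) hp hKpos
  have hG : Measurable (fun w : Fin n → ℂ => ‖rad h w‖ₑ ^ p) :=
    ((rad_differentiable hh).continuous.measurable.enorm).pow_const p
  have hm1 := hmean _ hG
  have hm2 : ∫⁻ w, ‖rad h w‖ₑ ^ p * ENNReal.ofReal (wt α (s + 1) w ^ p) =
      Lf α (s + 1) p (rad h) := by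
    unfold Lf
    exact lintegral_congr fun w => enorm_mul_wt α (s + 1) hp _ w
  rw [hm2] at hm1
  set H0 : (Fin n → ℂ) → ℝ≥0∞ := fun z => {z : Fin n → ℂ | K / (1 + nsq z) ≤ 1 / 2}.indicator
        (fun z => ENNReal.ofReal (wt α (s + 1) z ^ p * (1 + nsq z) ^ 2) *
          ∫⁻ ξ in ball (1 : ℂ) (K / (1 + nsq z)), ‖rad h (ξ • z)‖ₑ ^ p) z with hH0
  set A : ℝ := (4 * c) ^ p / Real.pi with hA
  have hA0 : 0 < A := by positivity
  set Φ : (Fin n → ℂ) → ℝ≥0∞ := fun z => ENNReal.ofReal ((‖h z‖ * wt α s z) ^ p) with hΦ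
  have hΦr : Continuous (fun z : Fin n → ℂ => (‖h z‖ * wt α s z) ^ p) := by
    refine Continuous.rpow_const (hh.continuous.norm.mul hwc) fun z => Or.inr hp.le
  have hΦm : Measurable Φ := ENNReal.measurable_ofReal.comp hΦr.measurable
  have hshm : ∀ k : ℕ, MeasurableSet (shell c k : Set (Fin n → ℂ)) := by
    intro k
    exact (measurableSet_le measurable_const hnc.measurable).inter
      (measurableSet_lt hnc.measurable measurable_const)
  set F : ℕ → (Fin n → ℂ) → ℝ≥0∞ := fun k => (shell c k).indicator Φ with hF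
  have hFm : ∀ k, Measurable (F k) := fun k => hΦm.indicator (hshm k)
  set q : ℝ := Real.exp (-(p * (α * c / 4))) with hq
  have hq0 : 0 < q := Real.exp_pos _
  -- the pointwise inequality
  have hpt : ∀ (M : ℕ) (z : Fin n → ℂ), {z : Fin n → ℂ | nsq z < M}.indicator Φ z ≤
      {z : Fin n → ℂ | nsq z < k0}.indicator Φ z + ENNReal.ofReal (2 ^ p) *
        (ENNReal.ofReal q * ∑ k ∈ Finset.Ico k0 M, F k (((lam c k : ℝ) : ℂ) • z) +
          ENNReal.ofReal A * H0 z) := by
    intro M z
    by_cases hzM : nsq z < M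
    swap
    · rw [indicator_of_notMem (by exact hzM)]
      exact bot_le
    by_cases hzk : nsq z < k0
    · rw [indicator_of_mem (by exact hzM), indicator_of_mem (by exact hzk)]
      exact le_self_add
    push Not at hzk
    rw [indicator_of_mem (by exact hzM)]
    refine le_trans ?_ le_add_self
    have hz0 := nsq_nonneg z
    have hz1 : 0 < 1 + nsq z := by linarith
    set k := ⌊nsq z⌋₊ with hk
    have hkle : (k : ℝ) ≤ nsq z := Nat.floor_le hz0
    have hklt : nsq z < k + 1 := Nat.lt_floor_add_one _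
    have hk0k : k0 ≤ k := Nat.le_floor hzk
    have hkM : k < M := by
      have : (k : ℝ) < M := lt_of_le_of_lt hkle hzM
      exact_mod_cast this
    have hk0kR : (k0 : ℝ) ≤ k := by exact_mod_cast hk0k
    have hkc : 2 * c ≤ (k : ℝ) + 1 := by linarith
    have hb := lam_bounds hc0.le hkc
    have hk1 : (0 : ℝ) < (k : ℝ) + 1 := by positivity
    have hw := wt_pos α s z
    -- first part
    have hsum : Φ (((lam c k : ℝ) : ℂ) • z) ≤
        ∑ k ∈ Finset.Ico k0 M, F k (((lam c k : ℝ) : ℂ) • z) := by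
      have hmem : ((lam c k : ℝ) : ℂ) • z ∈ shell c k := by
        have hn : nsq (((lam c k : ℝ) : ℂ) • z) = lam c k ^ 2 * nsq z := by
          rw [nsq_smul, Complex.norm_real, Real.norm_eq_abs, sq_abs]
        have hl : 0 < lam c k ^ 2 := by
          have : 0 < lam c k := by linarith
          positivity
        constructor
        · rw [hn]
          exact mul_le_mul_of_nonneg_left hkle hl.le
        · rw [hn]
          exact mul_lt_mul_of_pos_left hklt hl
      have h1 : Φ (((lam c k : ℝ) : ℂ) • z) = F k (((lam c k : ℝ) : ℂ) • z) := by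
        rw [hF]
        exact (indicator_of_mem hmem _).symm
      rw [h1]
      exact Finset.single_le_sum (f := fun k => F k (((lam c k : ℝ) : ℂ) • z))
        (fun _ _ => bot_le) (Finset.mem_Ico.2 ⟨hk0k, hkM⟩)
    have h2 : ENNReal.ofReal ((‖h (((lam c k : ℝ) : ℂ) • z)‖ * wt α s z) ^ p) ≤
        ENNReal.ofReal q * Φ (((lam c k : ℝ) : ℂ) • z) := by
      rw [hΦ, ← ENNReal.ofReal_mul hq0.le]
      apply ENNReal.ofReal_le_ofReal
      have h3 := wt_dilate hα.le s hc0.le (hk01.trans hk0k) hkc hkle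
      have hw' := wt_pos α s (((lam c k : ℝ) : ℂ) • z)
      calc (‖h (((lam c k : ℝ) : ℂ) • z)‖ * wt α s z) ^ p
          ≤ (Real.exp (-(α * c / 4)) *
            (‖h (((lam c k : ℝ) : ℂ) • z)‖ * wt α s (((lam c k : ℝ) : ℂ) • z))) ^ p := by
            apply Real.rpow_le_rpow (by positivity) _ hp.le
            calc ‖h (((lam c k : ℝ) : ℂ) • z)‖ * wt α s z ≤
                ‖h (((lam c k : ℝ) : ℂ) • z)‖ *
                  (Real.exp (-(α * c / 4)) * wt α s (((lam c k : ℝ) : ℂ) • z)) := by gcongr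
              _ = _ := by ring
        _ = q * (‖h (((lam c k : ℝ) : ℂ) • z)‖ * wt α s (((lam c k : ℝ) : ℂ) • z)) ^ p := by
            rw [Real.mul_rpow (Real.exp_pos _).le (by positivity), ← Real.exp_mul, hq]
            congr 2
            ring
    -- second part
    have h4 : ENNReal.ofReal ((‖h z - h (((lam c k : ℝ) : ℂ) • z)‖ * wt α s z) ^ p) ≤
        ENNReal.ofReal A * H0 z := by
      have hr : 0 < (1 + nsq z)⁻¹ := by positivity
      have h5 : 1 - lam c k ≤ 2 * c * (1 + nsq z)⁻¹ := by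
        have : 1 - lam c k = c / ((k : ℝ) + 1) := by unfold lam; ring
        rw [this, ← div_eq_mul_inv, div_le_div_iff₀ hk1 hz1]
        nlinarith
      have h6 := diff_le_mean hh z hp hr (b := 2 * c) (by positivity) hb.1 hb.2 h5
      have hmem : K / (1 + nsq z) ≤ 1 / 2 := by
        rw [div_le_iff₀ hz1]
        linarith
      have hH : H0 z = ENNReal.ofReal (wt α (s + 1) z ^ p * (1 + nsq z) ^ 2) *
          ∫⁻ ξ in ball (1 : ℂ) (K / (1 + nsq z)), ‖rad h (ξ • z)‖ₑ ^ p := by
        rw [hH0]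
        exact indicator_of_mem (by exact hmem) _
      rw [hH]
      rw [← hK, ← div_eq_mul_inv K] at h6
      rw [Real.mul_rpow (norm_nonneg _) hw.le, ENNReal.ofReal_mul (by positivity)]
      calc ENNReal.ofReal (‖h z - h (((lam c k : ℝ) : ℂ) • z)‖ ^ p) *
            ENNReal.ofReal (wt α s z ^ p)
          ≤ (ENNReal.ofReal ((2 * (2 * c) * (1 + nsq z)⁻¹) ^ p / (Real.pi * (1 + nsq z)⁻¹ ^ 2)) *
            ∫⁻ ξ in ball (1 : ℂ) (K / (1 + nsq z)), ‖rad h (ξ • z)‖ₑ ^ p) *
            ENNReal.ofReal (wt α s z ^ p) := by gcongr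
        _ = (ENNReal.ofReal ((2 * (2 * c) * (1 + nsq z)⁻¹) ^ p / (Real.pi * (1 + nsq z)⁻¹ ^ 2)) *
            ENNReal.ofReal (wt α s z ^ p)) *
            ∫⁻ ξ in ball (1 : ℂ) (K / (1 + nsq z)), ‖rad h (ξ • z)‖ₑ ^ p := by ring
        _ = (ENNReal.ofReal A * ENNReal.ofReal (wt α (s + 1) z ^ p * (1 + nsq z) ^ 2)) *
            ∫⁻ ξ in ball (1 : ℂ) (K / (1 + nsq z)), ‖rad h (ξ • z)‖ₑ ^ p := by
            congr 1
            rw [← ENNReal.ofReal_mul (by positivity), ← ENNReal.ofReal_mul (by positivity)]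
            congr 1
            rw [wt_succ, Real.mul_rpow (by positivity) hw.le,
              Real.mul_rpow (by positivity) hr.le, hA]
            have e1 : (2 * (2 * c)) = 4 * c := by ring
            rw [e1]
            field_simp
        _ = _ := by rw [mul_assoc]
    have h7 : Φ z ≤ ENNReal.ofReal (2 ^ p) *
        (ENNReal.ofReal ((‖h (((lam c k : ℝ) : ℂ) • z)‖ * wt α s z) ^ p) +
          ENNReal.ofReal ((‖h z - h (((lam c k : ℝ) : ℂ) • z)‖ * wt α s z) ^ p)) := by
      rw [hΦ, ← ENNReal.ofReal_add (by positivity) (by positivity),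
        ← ENNReal.ofReal_mul (by positivity)]
      apply ENNReal.ofReal_le_ofReal
      refine le_trans ?_ (add_rpow_le (by positivity) (by positivity) hp)
      apply Real.rpow_le_rpow (by positivity) _ hp.le
      rw [← add_mul]
      apply mul_le_mul_of_nonneg_right _ hw.le
      calc ‖h z‖ = ‖h (((lam c k : ℝ) : ℂ) • z) + (h z - h (((lam c k : ℝ) : ℂ) • z))‖ := by
            congr 1
            ring
        _ ≤ _ := norm_add_le _ _
    refine h7.trans ?_
    gcongr
    exact h2.trans (by gcongr)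
  -- measurability of the dilated functions
  have hdil : ∀ k : ℕ, Measurable (fun z : Fin n → ℂ => F k (((lam c k : ℝ) : ℂ) • z)) := by
    intro k
    refine (hFm k).comp ?_
    have : Continuous (fun z : Fin n → ℂ => ((lam c k : ℝ) : ℂ) • z) := by fun_prop
    exact this.measurable
  set X : ℝ≥0∞ := ∫⁻ z, {z : Fin n → ℂ | nsq z < k0}.indicator Φ z with hX
  set Y : ℝ≥0∞ := ENNReal.ofReal A * (C * Lf α (s + 1) p (rad h)) with hY
  have hYtop : Y ≠ ⊤ :=
    ENNReal.mul_ne_top ENNReal.ofReal_ne_top (ENNReal.mul_ne_top hC hL)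
  have hlt : ∀ M : ℝ, MeasurableSet {z : Fin n → ℂ | nsq z < M} := fun M =>
    measurableSet_lt hnc.measurable measurable_const
  -- finiteness of the truncated integrals
  have hfin : ∀ M : ℝ, ∫⁻ z, {z : Fin n → ℂ | nsq z < M}.indicator Φ z ≠ ⊤ := by
    intro M
    obtain ⟨B, hB⟩ := exists_bound_nsq hΦr M
    rw [lintegral_indicator (hlt M)]
    have h1 : ∫⁻ z in {z : Fin n → ℂ | nsq z < M}, Φ z ≤
        ∫⁻ z in {z : Fin n → ℂ | nsq z < M}, ENNReal.ofReal B := by
      refine setLIntegral_mono' (hlt M) fun z hz => ?_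
      exact ENNReal.ofReal_le_ofReal (hB z (le_of_lt hz))
    refine ne_top_of_le_ne_top ?_ h1
    rw [setLIntegral_const]
    exact ENNReal.mul_ne_top ENNReal.ofReal_ne_top (volume_nsq_lt M).ne
  -- the images of the shells overlap at most twice
  have hover : ∀ M : ℕ, ∑ k ∈ Finset.Ico k0 M, ∫⁻ w, F k w ≤
      2 * ∫⁻ z, {z : Fin n → ℂ | nsq z < M}.indicator Φ z := by
    intro M
    rw [← lintegral_finsetSum _ (fun k _ => hFm k),
      ← lintegral_const_mul _ (hΦm.indicator (hlt M))]
    refine lintegral_mono fun w => ?_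
    have e1 : ∑ k ∈ Finset.Ico k0 M, F k w = ((Finset.Ico k0 M).filter
        (fun k : ℕ => lam c k ^ 2 * k ≤ nsq w ∧ nsq w < lam c k ^ 2 * (k + 1))).card * Φ w := by
      rw [Finset.card_eq_sum_ones, Nat.cast_sum, Finset.sum_mul, Finset.sum_filter]
      refine Finset.sum_congr rfl fun k _ => ?_
      rw [Nat.cast_one, one_mul]
      by_cases hcond : lam c k ^ 2 * (k : ℝ) ≤ nsq w ∧ nsq w < lam c k ^ 2 * ((k : ℝ) + 1)
      · rw [if_pos hcond]
        exact indicator_of_mem (s := shell c k) hcond Φ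
      · rw [if_neg hcond]
        exact indicator_of_notMem (s := shell c k) hcond Φ
    have hov := overlap (t := nsq w) (M := M) hc0.le hk0c
    by_cases hw : nsq w < M
    · simp only [indicator_of_mem (show w ∈ {z : Fin n → ℂ | nsq z < M} from hw)]
      rw [e1]
      gcongr
      exact_mod_cast hov
    · have e2 : ∑ k ∈ Finset.Ico k0 M, F k w = 0 := by
        refine Finset.sum_eq_zero fun k hk => ?_
        rw [hF]
        refine indicator_of_notMem ?_ _
        rintro ⟨-, h2⟩
        apply hw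
        have hkI := Finset.mem_Ico.1 hk
        have h3 : (k0 : ℝ) ≤ k := by exact_mod_cast hkI.1
        have h4 : (k : ℝ) + 1 ≤ M := by exact_mod_cast hkI.2
        have hb := lam_bounds hc0.le (show 2 * c ≤ (k : ℝ) + 1 by linarith)
        have h5 : lam c k ^ 2 ≤ 1 := by nlinarith
        have h6 : (0 : ℝ) < (k : ℝ) + 1 := by positivity
        nlinarith
      rw [e2]
      exact bot_le
  -- the absorption
  have habs : ∀ M : ℕ, ∫⁻ z, {z : Fin n → ℂ | nsq z < M}.indicator Φ z ≤
      2 * (X + ENNReal.ofReal (2 ^ p) * Y) := by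
    intro M
    set Z := ∫⁻ z, {z : Fin n → ℂ | nsq z < M}.indicator Φ z with hZ
    have hZtop : Z ≠ ⊤ := hfin M
    have h1 : Z ≤ X + ENNReal.ofReal (2 ^ p) *
        (ENNReal.ofReal q * (4 ^ n * (2 * Z)) + Y) := by
      calc Z ≤ ∫⁻ z : Fin n → ℂ, ({z : Fin n → ℂ | nsq z < k0}.indicator Φ z + ENNReal.ofReal (2 ^ p) *
            (ENNReal.ofReal q * ∑ k ∈ Finset.Ico k0 M, F k (((lam c k : ℝ) : ℂ) • z) +
              ENNReal.ofReal A * H0 z)) := lintegral_mono (hpt M)
        _ = X + ENNReal.ofReal (2 ^ p) *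
            ((ENNReal.ofReal q *
              ∑ k ∈ Finset.Ico k0 M, (∫⁻ z : Fin n → ℂ, F k (((lam c k : ℝ) : ℂ) • z))) +
              ENNReal.ofReal A * ∫⁻ z : Fin n → ℂ, H0 z) := by
            have hsm : Measurable (fun z : Fin n → ℂ =>
                ∑ k ∈ Finset.Ico k0 M, F k (((lam c k : ℝ) : ℂ) • z)) :=
              Finset.measurable_sum _ fun k _ => hdil k
            rw [lintegral_add_left (hΦm.indicator (hlt k0)),
              lintegral_const_mul' _ _ ENNReal.ofReal_ne_top,
              lintegral_add_left (hsm.const_mul _),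
              lintegral_const_mul' _ _ ENNReal.ofReal_ne_top,
              lintegral_const_mul' _ _ ENNReal.ofReal_ne_top,
              lintegral_finsetSum _ (fun k _ => hdil k)]
        _ ≤ _ := by
            have g1 : ∑ k ∈ Finset.Ico k0 M, ∫⁻ z : Fin n → ℂ, F k (((lam c k : ℝ) : ℂ) • z) ≤
                4 ^ n * (2 * Z) := by
              calc ∑ k ∈ Finset.Ico k0 M, ∫⁻ z : Fin n → ℂ, F k (((lam c k : ℝ) : ℂ) • z)
                  ≤ ∑ k ∈ Finset.Ico k0 M, 4 ^ n * ∫⁻ w, F k w := by
                    refine Finset.sum_le_sum fun k hk => ?_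
                    refine lintegral_dilate_le ?_ (hFm k)
                    have hkI := Finset.mem_Ico.1 hk
                    have h3 : (k0 : ℝ) ≤ k := by exact_mod_cast hkI.1
                    have hb := lam_bounds hc0.le (show 2 * c ≤ (k : ℝ) + 1 by linarith)
                    rw [Complex.norm_real, Real.norm_eq_abs, abs_of_nonneg (by linarith)]
                    exact hb.1
                _ = 4 ^ n * ∑ k ∈ Finset.Ico k0 M, ∫⁻ w, F k w := by rw [Finset.mul_sum]
                _ ≤ _ := by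
                    gcongr
                    exact hover M
            have g2 : ENNReal.ofReal A * ∫⁻ z : Fin n → ℂ, H0 z ≤ Y := by
              rw [hY]
              gcongr
            exact add_le_add le_rfl (mul_le_mul' le_rfl
              (add_le_add (mul_le_mul' le_rfl g1) g2))
    have h2 : ENNReal.ofReal (2 ^ p) * (ENNReal.ofReal q * (4 ^ n * (2 * Z))) ≤ Z / 2 := by
      have e1 : ENNReal.ofReal (2 ^ p) * (ENNReal.ofReal q * (4 ^ n * (2 * Z))) =
          ENNReal.ofReal (2 ^ p * (2 * 4 ^ n * q)) * Z := by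
        rw [ENNReal.ofReal_mul (by positivity), ENNReal.ofReal_mul (by positivity),
          ENNReal.ofReal_mul (by norm_num), ENNReal.ofReal_pow (by norm_num)]
        simp only [ENNReal.ofReal_ofNat]
        ring
      rw [e1]
      calc ENNReal.ofReal (2 ^ p * (2 * 4 ^ n * q)) * Z ≤ ENNReal.ofReal (1 / 2) * Z := by
            gcongr
        _ = Z / 2 := by
            rw [one_div, ENNReal.ofReal_inv_of_pos (by norm_num), ENNReal.ofReal_ofNat,
              ENNReal.div_eq_inv_mul]
    have h3 : Z ≤ (X + ENNReal.ofReal (2 ^ p) * Y) + Z / 2 := by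
      calc Z ≤ _ := h1
        _ = (X + ENNReal.ofReal (2 ^ p) * Y) +
            ENNReal.ofReal (2 ^ p) * (ENNReal.ofReal q * (4 ^ n * (2 * Z))) := by ring
        _ ≤ _ := by gcongr
    have h4 : Z / 2 ≠ ⊤ := (ENNReal.div_lt_top hZtop (by norm_num)).ne
    have h5 : Z / 2 ≤ X + ENNReal.ofReal (2 ^ p) * Y := by
      have h6 : Z / 2 + Z / 2 ≤ (X + ENNReal.ofReal (2 ^ p) * Y) + Z / 2 := by
        rw [ENNReal.add_halves]
        exact h3
      exact (ENNReal.add_le_add_iff_right h4).1 h6
    calc Z = 2 * (Z / 2) := by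
          rw [two_mul, ENNReal.add_halves]
      _ ≤ _ := by gcongr
  -- the limit
  have hlim : Lf α s p h ≤ 2 * (X + ENNReal.ofReal (2 ^ p) * Y) := by
    have h1 : Lf α s p h = ∫⁻ z, ⨆ M : ℕ, {z : Fin n → ℂ | nsq z < M}.indicator Φ z := by
      unfold Lf
      refine lintegral_congr fun z => ?_
      apply le_antisymm
      · obtain ⟨M, hM⟩ := exists_nat_gt (nsq z)
        refine le_trans ?_ (le_iSup _ M)
        rw [indicator_of_mem (by exact hM)]
      · refine iSup_le fun M => ?_
        exact indicator_le_self _ _ z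
    rw [h1, lintegral_iSup (fun M => hΦm.indicator (hlt M))]
    · exact iSup_le habs
    · intro M M' hMM' z
      apply indicator_le_indicator_of_subset _ (fun _ => bot_le)
      intro z hz
      have : (M : ℝ) ≤ M' := by exact_mod_cast hMM'
      exact lt_of_lt_of_le hz this
  refine ne_top_of_le_ne_top ?_ hlim
  refine ENNReal.mul_ne_top (by norm_num) (ENNReal.add_ne_top.2 ⟨hfin k0, ?_⟩)
  exact ENNReal.mul_ne_top ENNReal.ofReal_ne_top hYtop

end Pool.Agent.V7H93.Fock
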