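import Pool.Agent.V7H93.Fock.D

set_option autoImplicit false
open MeasureTheory Metric Set Filter Topology
open scoped ENNReal

namespace Pool.Agent.V7H93.Fock

variable {n : ℕ}

lemma diff_le_sup {h : (Fin n → ℂ) → ℂ} (hh : Differentiable ℂ h) (z : Fin n → ℂ) {lam C : ℝ}
    (h1 : 1 / 2 ≤ lam) (h2 : lam ≤ 1)
    (hC : ∀ t : ℝ, lam ≤ t → t ≤ 1 → ‖rad h ((t : ℂ) • z)‖ ≤ C) :
    ‖h z - h ((lam : ℂ) • z)‖ ≤ 2 * C * (1 - lam) := by
  set u : ℂ → ℂ := fun ξ => h (ξ • z) with hu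
  have hud : Differentiable ℂ u := slice_differentiable hh z
  have hconv : Convex ℝ (segment ℝ (lam : ℂ) 1) := convex_segment _ _
  have hseg : ∀ ξ ∈ segment ℝ (lam : ℂ) 1, ∃ t : ℝ, lam ≤ t ∧ t ≤ 1 ∧ ξ = (t : ℂ) := by
    rintro ξ ⟨x, y, hx, hy, hxy, rfl⟩
    refine ⟨x * lam + y, ?_, ?_, ?_⟩
    · nlinarith
    · nlinarith
    · push_cast
      simp
  have hbd : ∀ ξ ∈ segment ℝ (lam : ℂ) 1, ‖deriv u ξ‖ ≤ 2 * C := by
    intro ξ hξ
    obtain ⟨t, ht1, ht2, rfl⟩ := hseg ξ hξ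
    have h4 : ‖rad h ((t : ℂ) • z)‖ ≤ C := hC t ht1 ht2
    have h5 : rad h ((t : ℂ) • z) = (t : ℂ) * deriv u (t : ℂ) := rad_slice hh z t
    rw [h5, norm_mul, Complex.norm_real, Real.norm_eq_abs, abs_of_nonneg (by linarith)] at h4
    nlinarith [norm_nonneg (deriv u (t : ℂ))]
  have h6 := hconv.norm_image_sub_le_of_norm_deriv_le (f := u) (C := 2 * C)
    (fun x _ => hud x) hbd (left_mem_segment ℝ (lam : ℂ) 1) (right_mem_segment ℝ (lam : ℂ) 1)
  have h7 : ‖(1 : ℂ) - (lam : ℂ)‖ = 1 - lam := by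
    rw [← Complex.ofReal_one, ← Complex.ofReal_sub, Complex.norm_real, Real.norm_eq_abs,
      abs_of_nonneg (by linarith)]
  have h8 : u 1 = h z := by
    rw [hu]
    simp
  rwa [h7, h8] at h6

/-- the case `p = ∞`, from the function to its radial derivative -/
theorem sup_up {α : ℝ} (hα : 0 ≤ α) (s : ℕ) {h : (Fin n → ℂ) → ℂ} (hh : Differentiable ℂ h)
    {B : ℝ} (hB : ∀ z, ‖h z‖ * wt α s z ≤ B) :
    ∃ B' : ℝ, ∀ z, ‖rad h z‖ * wt α (s + 1) z ≤ B' := by
  set c0 : ℝ := (9 / 4) ^ s * Real.exp (5 / 4 * α * (1 / 4)) with hc0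
  have hc0pos : 0 < c0 := by positivity
  refine ⟨4 * (c0 * B), fun z => ?_⟩
  have hz := nsq_nonneg z
  have hz1 : 0 < 1 + nsq z := by linarith
  have hw := wt_pos α s z
  have hr : 0 < 1 / 4 / (1 + nsq z) := by positivity
  have hr2 : 1 / 4 / (1 + nsq z) ≤ 1 / 2 := by
    rw [div_le_iff₀ hz1]
    nlinarith
  set g : ℂ → ℂ := fun ξ => h (ξ • z) with hg
  have hgd : Differentiable ℂ g := slice_differentiable hh z
  have h1 : rad h z = deriv g 1 := by
    have := rad_slice hh z 1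
    rwa [one_smul, one_mul] at this
  have h2 : ∀ ξ ∈ sphere (1 : ℂ) (1 / 4 / (1 + nsq z)), ‖g ξ‖ ≤ c0 * B / wt α s z := by
    intro ξ hξ
    rw [mem_sphere, dist_eq_norm] at hξ
    have h3 := wt_le hα s hr2 hξ.le
    rw [le_div_iff₀ hw]
    calc ‖g ξ‖ * wt α s z ≤ ‖g ξ‖ * (c0 * wt α s (ξ • z)) := by gcongr
      _ = c0 * (‖h (ξ • z)‖ * wt α s (ξ • z)) := by rw [hg]; ring
      _ ≤ c0 * B := by gcongr; exact hB _
  have h3 := Complex.norm_deriv_le_of_forall_mem_sphere_norm_le hr hgd.diffContOnCl h2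
  rw [← h1] at h3
  rw [wt_succ]
  calc ‖rad h z‖ * ((1 + nsq z)⁻¹ * wt α s z)
      ≤ (c0 * B / wt α s z / (1 / 4 / (1 + nsq z))) * ((1 + nsq z)⁻¹ * wt α s z) := by gcongr
    _ = 4 * (c0 * B) := by
        field_simp

/-- the case `p = ∞`, from the radial derivative back to the function -/
theorem sup_down {α : ℝ} (hα : 0 < α) (s : ℕ) {h : (Fin n → ℂ) → ℂ} (hh : Differentiable ℂ h)
    {B : ℝ} (hB : ∀ z, ‖rad h z‖ * wt α (s + 1) z ≤ B) :
    ∃ B' : ℝ, ∀ z, ‖h z‖ * wt α s z ≤ B' := by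
  have hwc := wt_continuous (n := n) α s
  set c : ℝ := 4 / α with hc
  have hc0 : 0 < c := by positivity
  have hexp : Real.exp (-(α * c / 4)) ≤ 1 / 2 := by
    have : α * c / 4 = 1 := by rw [hc]; field_simp
    rw [this]
    have h1 : Real.exp (-1) = (Real.exp 1)⁻¹ := Real.exp_neg 1
    rw [h1, one_div]
    apply inv_anti₀ (by norm_num)
    have := Real.add_one_le_exp (1 : ℝ)
    linarith
  obtain ⟨k0, hk0⟩ := exists_nat_gt (4 * c + 2)
  have hk01 : 1 ≤ k0 := by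
    have : (0 : ℝ) < k0 := by linarith
    exact_mod_cast this
  have hk0c : 2 * c ≤ (k0 : ℝ) + 1 := by linarith
  obtain ⟨B0, hB0⟩ := exists_bound_nsq (hh.continuous.norm.mul hwc) (k0 : ℝ)
  set c0 : ℝ := (9 / 4) ^ s * Real.exp (5 / 4 * α * (2 * c)) with hc0def
  have hc0pos : 0 < c0 := by positivity
  have hB' : 0 ≤ B := le_trans (mul_nonneg (norm_nonneg _) (wt_pos α (s + 1) 0).le) (hB 0)
  set E : ℝ := 4 * c * (c0 * B) with hE
  have hE0 : 0 ≤ E := by positivity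
  set B1 : ℝ := max B0 (2 * E) with hB1
  have hstep : ∀ z : Fin n → ℂ, (k0 : ℝ) ≤ nsq z → ∃ w : Fin n → ℂ, nsq w ≤ nsq z - c / 2 ∧
      ‖h z‖ * wt α s z ≤ 1 / 2 * (‖h w‖ * wt α s w) + E := by
    intro z hzk
    have hz0 := nsq_nonneg z
    have hz1 : 0 < 1 + nsq z := by linarith
    set k := ⌊nsq z⌋₊ with hk
    have hkle : (k : ℝ) ≤ nsq z := Nat.floor_le hz0
    have hklt : nsq z < k + 1 := Nat.lt_floor_add_one _
    have hk0k : k0 ≤ k := Nat.le_floor hzk
    have hk0kR : (k0 : ℝ) ≤ k := by exact_mod_cast hk0k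
    have hkc : 2 * c ≤ (k : ℝ) + 1 := by linarith
    have hb := lam_bounds hc0.le hkc
    have hk1 : (0 : ℝ) < (k : ℝ) + 1 := by positivity
    have hk1' : (1 : ℝ) ≤ k := by
      have : 1 ≤ k := hk01.trans hk0k
      exact_mod_cast this
    have hw := wt_pos α s z
    have hn : nsq (((lam c k : ℝ) : ℂ) • z) = lam c k ^ 2 * nsq z := by
      rw [nsq_smul, Complex.norm_real, Real.norm_eq_abs, sq_abs]
    refine ⟨((lam c k : ℝ) : ℂ) • z, ?_, ?_⟩
    · rw [hn]
      have h2 : c / ((k : ℝ) + 1) ≤ 1 - lam c k ^ 2 := by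
        have : 1 - lam c k = c / ((k : ℝ) + 1) := by unfold lam; ring
        nlinarith
      have h3 : c / 2 ≤ c / ((k : ℝ) + 1) * nsq z := by
        rw [div_mul_eq_mul_div, div_le_div_iff₀ (by norm_num) hk1]
        nlinarith
      have h4 : c / ((k : ℝ) + 1) * nsq z ≤ (1 - lam c k ^ 2) * nsq z :=
        mul_le_mul_of_nonneg_right h2 hz0
      linarith
    · have h3 := wt_dilate hα.le s hc0.le (hk01.trans hk0k) hkc hkle
      have h5 : 1 - lam c k ≤ 2 * c / (1 + nsq z) := by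
        have : 1 - lam c k = c / ((k : ℝ) + 1) := by unfold lam; ring
        rw [this, div_le_div_iff₀ hk1 hz1]
        nlinarith
      have hmem : 2 * c / (1 + nsq z) ≤ 1 / 2 := by
        rw [div_le_iff₀ hz1]
        linarith
      have h6 : ∀ t : ℝ, lam c k ≤ t → t ≤ 1 →
          ‖rad h ((t : ℂ) • z)‖ ≤ c0 * ((1 + nsq z) * B) / wt α s z := by
        intro t ht1 ht2
        have ht3 : ‖(t : ℂ) - 1‖ ≤ 2 * c / (1 + nsq z) := by
          rw [← Complex.ofReal_one, ← Complex.ofReal_sub, Complex.norm_real, Real.norm_eq_abs,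
            abs_sub_comm, abs_of_nonneg (by linarith)]
          linarith
        have h7 := wt_le hα.le s hmem ht3
        have h8 := hB ((t : ℂ) • z)
        rw [wt_succ] at h8
        have hn' : nsq ((t : ℂ) • z) = t ^ 2 * nsq z := by
          rw [nsq_smul, Complex.norm_real, Real.norm_eq_abs, sq_abs]
        have ht0 : 0 ≤ t := by linarith
        have hn2 : nsq ((t : ℂ) • z) ≤ nsq z := by
          rw [hn']
          have : t ^ 2 ≤ 1 := by nlinarith
          nlinarith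
        have hn0 := nsq_nonneg ((t : ℂ) • z)
        have hn1 : 0 < 1 + nsq ((t : ℂ) • z) := by linarith
        have hwt := wt_pos α s ((t : ℂ) • z)
        rw [le_div_iff₀ hw]
        calc ‖rad h ((t : ℂ) • z)‖ * wt α s z
            ≤ ‖rad h ((t : ℂ) • z)‖ * (c0 * wt α s ((t : ℂ) • z)) := by gcongr
          _ = c0 * ((1 + nsq ((t : ℂ) • z)) *
              (‖rad h ((t : ℂ) • z)‖ * ((1 + nsq ((t : ℂ) • z))⁻¹ * wt α s ((t : ℂ) • z)))) := by
              field_simp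
          _ ≤ c0 * ((1 + nsq z) * B) := by gcongr
      have h9 := diff_le_sup hh z hb.1 hb.2 h6
      have h10 : ‖h z - h (((lam c k : ℝ) : ℂ) • z)‖ * wt α s z ≤ E := by
        calc ‖h z - h (((lam c k : ℝ) : ℂ) • z)‖ * wt α s z
            ≤ (2 * (c0 * ((1 + nsq z) * B) / wt α s z) * (2 * c / (1 + nsq z))) * wt α s z := by
              gcongr
              refine h9.trans ?_
              gcongr
          _ = E := by
              rw [hE]
              field_simp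
              ring
      have h11 : ‖h z‖ ≤ ‖h (((lam c k : ℝ) : ℂ) • z)‖ +
          ‖h z - h (((lam c k : ℝ) : ℂ) • z)‖ := by
        calc ‖h z‖ = ‖h (((lam c k : ℝ) : ℂ) • z) + (h z - h (((lam c k : ℝ) : ℂ) • z))‖ := by
              congr 1
              ring
          _ ≤ _ := norm_add_le _ _
      have hw' := wt_pos α s (((lam c k : ℝ) : ℂ) • z)
      calc ‖h z‖ * wt α s z ≤ (‖h (((lam c k : ℝ) : ℂ) • z)‖ +
            ‖h z - h (((lam c k : ℝ) : ℂ) • z)‖) * wt α s z := by gcongr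
        _ = ‖h (((lam c k : ℝ) : ℂ) • z)‖ * wt α s z +
            ‖h z - h (((lam c k : ℝ) : ℂ) • z)‖ * wt α s z := by ring
        _ ≤ ‖h (((lam c k : ℝ) : ℂ) • z)‖ *
            (Real.exp (-(α * c / 4)) * wt α s (((lam c k : ℝ) : ℂ) • z)) + E := by gcongr
        _ ≤ ‖h (((lam c k : ℝ) : ℂ) • z)‖ *
            (1 / 2 * wt α s (((lam c k : ℝ) : ℂ) • z)) + E := by gcongr
        _ = _ := by ring
  have hind : ∀ m : ℕ, ∀ z : Fin n → ℂ, nsq z ≤ k0 + m * (c / 2) → ‖h z‖ * wt α s z ≤ B1 := by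
    intro m
    induction m with
    | zero =>
      intro z hz
      refine (hB0 z ?_).trans (le_max_left _ _)
      simpa using hz
    | succ m ih =>
      intro z hz
      by_cases hzk : nsq z ≤ k0
      · exact (hB0 z hzk).trans (le_max_left _ _)
      · push Not at hzk
        obtain ⟨w, hw1, hw2⟩ := hstep z hzk.le
        have h1 := ih w (by push_cast at hz; linarith)
        have h2 : 2 * E ≤ B1 := le_max_right _ _
        linarith
  refine ⟨B1, fun z => ?_⟩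
  obtain ⟨m, hm⟩ := exists_nat_gt (nsq z / (c / 2))
  refine hind m z ?_
  rw [div_lt_iff₀ (by positivity)] at hm
  have : (0 : ℝ) ≤ k0 := by positivity
  linarith

lemma bound_of_memLp_top {F : (Fin n → ℂ) → ℂ} (hF : Continuous F) (hm : MemLp F ⊤ volume) :
    ∃ B : ℝ, ∀ z, ‖F z‖ ≤ B := by
  have h1 : eLpNorm F ⊤ volume < ⊤ := hm.2
  rw [eLpNorm_exponent_top] at h1
  set B := (eLpNormEssSup F volume).toReal with hB
  have h2 : ∀ᵐ z ∂(volume : Measure (Fin n → ℂ)), ‖F z‖ ≤ B := by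
    filter_upwards [ae_le_eLpNormEssSup (f := F) (μ := (volume : Measure (Fin n → ℂ)))] with z hz
    rw [hB, ← toReal_enorm]
    exact ENNReal.toReal_mono h1.ne hz
  have hcl : IsClosed {z : Fin n → ℂ | ‖F z‖ ≤ B} := isClosed_le hF.norm continuous_const
  have h3 : {z : Fin n → ℂ | ‖F z‖ ≤ B} =ᵐ[volume] (univ : Set (Fin n → ℂ)) := by
    rw [ae_eq_univ]
    exact h2
  have h4 := hcl.ae_eq_univ_iff_eq.1 h3
  refine ⟨B, fun z => ?_⟩
  have : z ∈ {z : Fin n → ℂ | ‖F z‖ ≤ B} := by rw [h4]; trivial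
  exact this

lemma norm_mul_wt (α : ℝ) (s : ℕ) (w : ℂ) (z : Fin n → ℂ) :
    ‖w * ((wt α s z : ℝ) : ℂ)‖ = ‖w‖ * wt α s z := by
  rw [norm_mul, Complex.norm_real, Real.norm_eq_abs, abs_of_pos (wt_pos α s z)]

lemma memLp_iff_Lf {F : (Fin n → ℂ) → ℂ} (hF : Continuous F) {p : ℝ≥0∞} (hp : p ≠ 0)
    (hp' : p ≠ ⊤) (α : ℝ) (s : ℕ) :
    MemLp (fun z => F z * ((wt α s z : ℝ) : ℂ)) p volume ↔ Lf α s p.toReal F ≠ ⊤ := by
  have hc : Continuous (fun z : Fin n → ℂ => F z * ((wt α s z : ℝ) : ℂ)) :=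
    hF.mul (Complex.continuous_ofReal.comp (wt_continuous α s))
  have h1 : MemLp (fun z => F z * ((wt α s z : ℝ) : ℂ)) p volume ↔
      eLpNorm (fun z => F z * ((wt α s z : ℝ) : ℂ)) p volume < ⊤ :=
    ⟨fun h => h.2, fun h => ⟨hc.aestronglyMeasurable, h⟩⟩
  rw [h1, eLpNorm_lt_top_iff_lintegral_rpow_enorm_lt_top hp hp', lt_top_iff_ne_top]
  have hpr : 0 < p.toReal := ENNReal.toReal_pos hp hp'
  have h2 : ∫⁻ z, ‖F z * ((wt α s z : ℝ) : ℂ)‖ₑ ^ p.toReal = Lf α s p.toReal F := by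
    unfold Lf
    refine lintegral_congr fun z => ?_
    rw [enorm_rpow _ hpr, norm_mul_wt]
  rw [h2]

/-- one step, for all `p` -/
theorem one_step {α : ℝ} (hα : 0 < α) (s : ℕ) {p : ℝ≥0∞} (hp : p ≠ 0) {h : (Fin n → ℂ) → ℂ}
    (hh : Differentiable ℂ h) :
    MemLp (fun z => h z * ((wt α s z : ℝ) : ℂ)) p volume ↔
      MemLp (fun z => rad h z * ((wt α (s + 1) z : ℝ) : ℂ)) p volume := by
  have hr := rad_differentiable hh
  by_cases hp' : p = ⊤
  · subst hp'
    have hc1 : Continuous (fun z : Fin n → ℂ => h z * ((wt α s z : ℝ) : ℂ)) :=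
      hh.continuous.mul (Complex.continuous_ofReal.comp (wt_continuous α s))
    have hc2 : Continuous (fun z : Fin n → ℂ => rad h z * ((wt α (s + 1) z : ℝ) : ℂ)) :=
      hr.continuous.mul (Complex.continuous_ofReal.comp (wt_continuous α (s + 1)))
    constructor
    · intro hm
      obtain ⟨B, hB⟩ := bound_of_memLp_top hc1 hm
      obtain ⟨B', hB'⟩ := sup_up hα.le s hh (B := B) (fun z => by
        have := hB z
        rwa [norm_mul_wt] at this)
      refine memLp_top_of_bound hc2.aestronglyMeasurable B' (Eventually.of_forall fun z => ?_)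
      rw [norm_mul_wt]
      exact hB' z
    · intro hm
      obtain ⟨B, hB⟩ := bound_of_memLp_top hc2 hm
      obtain ⟨B', hB'⟩ := sup_down hα s hh (B := B) (fun z => by
        have := hB z
        rwa [norm_mul_wt] at this)
      refine memLp_top_of_bound hc1.aestronglyMeasurable B' (Eventually.of_forall fun z => ?_)
      rw [norm_mul_wt]
      exact hB' z
  · have hpr : 0 < p.toReal := ENNReal.toReal_pos hp hp'
    rw [memLp_iff_Lf hh.continuous hp hp', memLp_iff_Lf hr.continuous hp hp']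
    exact ⟨step_up hα.le s hpr hh, step_down hα s hpr hh⟩

theorem all_steps {α : ℝ} (hα : 0 < α) {p : ℝ≥0∞} (hp : p ≠ 0) {f : (Fin n → ℂ) → ℂ}
    (hf : Differentiable ℂ f) (N : ℕ) :
    MemLp (fun z => f z * ((wt α 0 z : ℝ) : ℂ)) p volume ↔
      MemLp (fun z => rad^[N] f z * ((wt α N z : ℝ) : ℂ)) p volume := by
  induction N with
  | zero => rfl
  | succ N ih =>
    rw [ih, one_step hα N hp (rad_iter_differentiable hf N), Function.iterate_succ_apply']

end Pool.Agent.V7H93.Fock
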